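import Pool.Agent.Y258.SD.CStmts

set_option autoImplicit false
set_option linter.unusedSectionVars false

/-!
# Star discrepancy, path part: (C4) allowed paths have no short old relations
-/

namespace Pool.Agent.Y590.SD

open Finset Pool.Agent.H470D4 Pool.Agent.Y258
open Pool.Agent.H935R2.PS (La uu nn dl mx Suit)

section
variable {q M B n : ℕ} [Fact q.Prime]

lemma dl_le_La (x : ZMod q) : dl x ≤ La q := by
  unfold dl La nn
  apply Nat.log_mono_right
  have h := ZMod.natAbs_valMinAbs_le x
  omega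

lemma sz_option (H : Option (Fin (n+2)) → ZMod q) :
    sz H = dl (H none) + sz (fun a => H (some a)) := by
  unfold sz
  rw [Fintype.sum_option]

/-- no relation before the first row -/
lemma not_OR_zero {c : Flg q M B n} (hc : IsFlags c) (ω : Pth q B) (l : Fin (n+2) → ℕ)
    (hl : ∑ a, l a + (n + 2) ≤ M * B) (O : Fin (n+2) → ZMod q) (hO : O ≠ 0) : ¬ OR c ω l 0 O := by
  classical
  obtain ⟨a0, ha0⟩ : ∃ a, O a ≠ 0 := Function.ne_iff.1 hO
  intro hOR
  set W1 : Fin (n+2) → ℕ := fun a => if a = a0 then l a else l a + 1 with hW1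
  set W2 : Fin (n+2) → ℕ := fun a => l a + 1 with hW2
  have s2 : ∑ a, W2 a = ∑ a, l a + (n + 2) := by
    rw [hW2, sum_add_distrib]; simp
  have s1 : ∑ a, W1 a + 1 = ∑ a, W2 a := by
    rw [← Finset.add_sum_erase _ W1 (mem_univ a0), ← Finset.add_sum_erase _ W2 (mem_univ a0)]
    have e : ∑ a ∈ univ.erase a0, W1 a = ∑ a ∈ univ.erase a0, W2 a := by
      apply sum_congr rfl
      intro a ha
      have : a ≠ a0 := (mem_erase.1 ha).1
      simp [hW1, hW2, this]
    rw [e]
    simp [hW1, hW2]
    ring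
  have f1 := hc.mds ω W1
  have f2 := hc.mds ω W2
  have hlt : Module.finrank (ZMod q) (AA c ω W2 0) < Module.finrank (ZMod q) (AA c ω W1 0) := by
    rw [f1, f2]; omega
  have hnle : ¬ (AA c ω W1 0 ≤ AA c ω W2 0) := by
    intro hle
    have := Submodule.finrank_mono hle
    omega
  obtain ⟨v, hv1, hv2⟩ := SetLike.not_le_iff_exists.1 hnle
  have hv1' := mem_AA.1 hv1
  have hl0 : ∀ a, ∀ j < l a, c a j v = 0 := by
    intro a j hj
    apply hv1'.1 a j
    simp only [hW1]
    split_ifs <;> omega
  have hne : c a0 (l a0) v ≠ 0 := by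
    intro h0
    apply hv2
    rw [mem_AA]
    refine ⟨fun a j hj => ?_, fun j hj => absurd hj (Nat.not_lt_zero _)⟩
    by_cases ha : a = a0
    · subst ha
      rcases Nat.lt_succ_iff_lt_or_eq.1 hj with h | h
      · exact hl0 a j h
      · rw [h]; exact h0
    · apply hv1'.1 a j
      simp only [hW1, if_neg ha]
      exact hj
  have hz : ∀ a, a ≠ a0 → c a (l a) v = 0 := by
    intro a ha
    apply hv1'.1 a
    simp only [hW1, if_neg ha]
    omega
  have := hOR v (mem_AA.2 ⟨hl0, fun j hj => absurd hj (Nat.not_lt_zero _)⟩)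
  rw [Finset.sum_eq_single a0 (fun a _ ha => by rw [hz a ha, mul_zero])
    (fun h => absurd (mem_univ _) h)] at this
  exact (mul_ne_zero ha0 hne) this

/-- if a relation appears at the row `J`, then it comes from the row `J` -/
lemma exists_Rel {c : Flg q M B n} (ω : Pth q B) (l : Fin (n+2) → ℕ) (J : ℕ)
    (O : Fin (n+2) → ZMod q) (h0 : ¬ OR c ω l J O) (h1 : OR c ω l (J+1) O) :
    ∃ H : Option (Fin (n+2)) → ZMod q, H none ≠ 0 ∧ (∀ a, H (some a) = O a) ∧ Rel c ω l J H := by
  unfold OR at h0
  push Not at h0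
  obtain ⟨v0, hv0, hf0⟩ := h0
  set f : Vec q M B →ₗ[ZMod q] ZMod q := ∑ a, O a • c a (l a) with hf
  have fa : ∀ v, f v = ∑ a, O a * c a (l a) v := by
    intro v
    rw [hf, LinearMap.sum_apply]
    rfl
  have hg0 : row M ω J v0 ≠ 0 := by
    intro hg
    apply hf0
    apply h1 v0
    rw [AA_succ, Submodule.mem_inf]
    exact ⟨hv0, LinearMap.mem_ker.2 hg⟩
  have key : ∀ v ∈ AA c ω l J, f v = f v0 / row M ω J v0 * row M ω J v := by
    intro v hv
    set w : Vec q M B := v - (row M ω J v / row M ω J v0) • v0 with hw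
    have hwA : w ∈ AA c ω l (J+1) := by
      rw [AA_succ, Submodule.mem_inf]
      refine ⟨Submodule.sub_mem _ hv (Submodule.smul_mem _ _ hv0), ?_⟩
      rw [LinearMap.mem_ker, hw, map_sub, map_smul, smul_eq_mul, div_mul_cancel₀ _ hg0, sub_self]
    have h2 := h1 w hwA
    rw [← fa, hw, map_sub, map_smul, smul_eq_mul, sub_eq_zero] at h2
    rw [h2]
    field_simp
  refine ⟨fun o => o.elim (-(f v0 / row M ω J v0)) O, ?_, fun a => rfl, ?_⟩
  · simp only [Option.elim_none, ne_eq, neg_eq_zero]
    rw [fa]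
    exact div_ne_zero hf0 hg0
  · intro v hv
    have h3 := key v hv
    rw [fa] at h3
    simp only [Option.elim_none, Option.elim_some]
    rw [h3]
    ring

end

theorem c4 : St_C4 := by
  intro n q _ M B c hc K0 K7 ω hex hnr hal r hr hn β hβ l hl O hO hOR hBd
  classical
  have hl' : l ∈ Lbox M B n ∧ β * B ≤ l 0 ∧ l 0 + K7 ≤ (β + 1) * B ∧
    ∑ a, l a + r < M * B ∧ M * B ≤ ∑ a, l a + r + (n + 2) := by
    simpa only [IL, mem_filter] using hl
  obtain ⟨hb, h1, h2, h3, h4⟩ := hl'
  have hnot0 : ¬ OR c ω l 0 O := not_OR_zero hc ω l (by omega) O hO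
  -- the first time the relation holds
  have hexi : ∃ j, OR c ω l j O := ⟨r, hOR⟩
  have hj0 := Nat.find_spec hexi
  have hjr : Nat.find hexi ≤ r := Nat.find_min' hexi hOR
  have hjpos : Nat.find hexi ≠ 0 := by
    intro h
    rw [h] at hj0
    exact hnot0 hj0
  obtain ⟨J, hJ⟩ : ∃ J, Nat.find hexi = J + 1 := Nat.exists_eq_succ_of_ne_zero hjpos
  have hJ1 : OR c ω l (J+1) O := by rw [← hJ]; exact hj0
  have hJ0 : ¬ OR c ω l J O := Nat.find_min hexi (by omega)
  obtain ⟨H, hH0, hHs, hRel⟩ := exists_Rel ω l J O hJ0 hJ1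
  have hJr : J < r := by omega
  by_cases hdim : ∑ a, l a + J + (n + 3) ≤ M * B
  · exact hnr l J (by omega) hdim H hH0 hRel
  · have hM : 0 < M := by
      rcases Nat.eq_zero_or_pos M with h | h
      · subst h; omega
      · exact h
    set j := J * M + (M - 1 - β) with hjdef
    have hlt : M - 1 - β < M := by omega
    have hjlt : j < M * B * M := by
      calc j < J * M + M := by omega
        _ = (J + 1) * M := by ring
        _ ≤ M * B * M := Nat.mul_le_mul_right _ (by omega)
    have hdiv : j / M = J := by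
      rw [hjdef, mul_comm, Nat.mul_add_div hM, Nat.div_eq_of_lt hlt, add_zero]
    have hmod : j % M = M - 1 - β := by
      rw [hjdef, mul_comm, Nat.mul_add_mod, Nat.mod_eq_of_lt hlt]
    have hmod' : M - 1 - j % M = β := by rw [hmod]; omega
    have hmem := hal j hjlt
    have hmem' : Exc c ω (j / M) → ∀ l ∈ IL M B n K7 (j / M) (M - 1 - j % M),
        Gd c K0 (Function.update ω j (ω j)) l (j / M) := by
      simpa only [AlS, mem_filter, mem_univ, true_and] using hmem
    rw [Function.update_eq_self, hdiv, hmod'] at hmem'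
    have hGd := hmem' (hex J (by omega)) l (by
      simp only [IL, mem_filter]
      refine ⟨hb, h1, h2, by omega, by omega⟩)
    apply hGd H hH0 hRel
    have hs : sz (fun a => H (some a)) = sz O := by
      congr 1
      funext a
      exact hHs a
    have hd := dl_le_La (H none)
    have hdm : dm M B l r + 1 ≤ dm M B l J := by
      unfold dm; omega
    unfold Pool.Agent.Y258.Bd at hBd ⊢
    rw [sz_option, hs]
    calc dl (H none) + sz O + K0 ≤ La q + dm M B l r * La q := by omega
      _ = (dm M B l r + 1) * La q := by ring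
      _ ≤ dm M B l J * La q := Nat.mul_le_mul_right _ hdm

end Pool.Agent.Y590.SD
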