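import Pool.Agent.Y258.SD.CStmts2

set_option autoImplicit false

/-!
# Star discrepancy, path part: induction on the dimension
-/

namespace Pool.Agent.Y590.SD

open Finset Pool.Agent.H470D4 Pool.Agent.Y258
open Pool.Agent.H935R2.PS (La uu nn dl mx Suit)

lemma GB_mono {q M B n : ℕ} [NeZero q] {c : Flg q M B n} {E E' : ℝ} (h : GB c E) (hE : E ≤ E') :
    GB c E' := fun X => (h X).trans hE

/-- the claim at the stage `k` -/
def Cl (e k : ℕ) : Prop := ∃ C : ℕ, ∀ (q : ℕ) [Fact q.Prime], Suit q → C ≤ q →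
  ∃ c : Flg q (La q ^ e) (La q ^ 2) k, IsFlags c ∧
    GB c (C * ((La q : ℝ) ^ (e + 2)) ^ (k + 1) * (La q : ℝ) ^ k * (uu q : ℝ) ^ 2)

/-- the claim at the stage `0` -/
def Cl0 (e : ℕ) : Prop := ∃ C : ℕ, ∀ (q : ℕ) [Fact q.Prime], Suit q → C ≤ q →
  ∃ c : Flg q (La q ^ e) (La q ^ 2) 0, IsFlags c ∧
    GB c (C * (La q : ℝ) ^ (e + 2) * (La q : ℝ) ^ 2)

lemma La_pos {q : ℕ} (hq : 3 ≤ q) : 1 ≤ La q := by
  unfold La
  exact Nat.log_pos (by norm_num) (by omega)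

lemma uu_pos (q : ℕ) : 1 ≤ uu q := by
  unfold uu; omega

lemma cl0 (h20 : St_C20) (e : ℕ) : Cl0 e := by
  obtain ⟨C, hC⟩ := h20
  refine ⟨C + 3, ?_⟩
  intro q _ hs hCq
  have hL := La_pos (q := q) (by omega)
  obtain ⟨c, hc, hg⟩ := hC q (by omega) (La q ^ e) (La q ^ 2) (by positivity) (by positivity)
  refine ⟨c, hc, GB_mono hg ?_⟩
  push_cast
  rw [← pow_add]
  have h0 : (0:ℝ) ≤ (La q : ℝ) ^ (e + 2) * (La q : ℝ) ^ 2 := by positivity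
  nlinarith

lemma core_step (h19 : St_C19) {e k e₀ : ℕ}
    (he₀ : ∀ e : ℕ, e₀ ≤ e → ∃ C : ℕ, ∀ (q : ℕ) [Fact q.Prime],
  Suit q → C ≤ q → ∀ c : Flg q (La q ^ e) (La q ^ 2) k, IsFlags c →
  ∃ ω : Pth q (La q ^ 2), (∀ r ≤ La q ^ e * La q ^ 2, Exc c ω r) ∧
    ∀ (X : Fin (k+2) → ℕ → ZMod q) (Y : ℕ → ZMod q),
      (∀ a j, La q ^ e * La q ^ 2 ≤ j → X a j = 0) → (∀ j, La q ^ e * La q ^ 2 ≤ j → Y j = 0) →
      |∑ r ∈ range (La q ^ e * La q ^ 2), XX c (cD (La q ^ e) (La q ^ 2) X Y) ω r| ≤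
        C * ((La q : ℝ) ^ (e + 2)) ^ (k + 2) * (La q : ℝ) ^ (k + 1) * (uu q : ℝ) ^ 2)
    (he : e₀ ≤ e) : ∃ C' : ℕ, ∀ (q : ℕ) [Fact q.Prime], Suit q → C' ≤ q →
      ∀ c : Flg q (La q ^ e) (La q ^ 2) k, IsFlags c → ∀ E : ℝ, GB c E →
      ∃ c' : Flg q (La q ^ e) (La q ^ 2) (k + 1), IsFlags c' ∧
        GB c' (E + C' * ((La q : ℝ) ^ (e + 2)) ^ (k + 2) * (La q : ℝ) ^ (k + 1) * (uu q : ℝ) ^ 2) := by
  obtain ⟨C, hC⟩ := he₀ e he
  refine ⟨C, ?_⟩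
  intro q _ hs hCq c hc E hE
  obtain ⟨ω, hex, hb⟩ := hC q hs hCq c hc
  obtain ⟨h1, h2⟩ := h19 k q (La q ^ e) (La q ^ 2) c hc ω hex
  exact ⟨newF c ω, h1, h2 E _ hE (by positivity) hb⟩

theorem ind (hcore : St_Core) (h19 : St_C19) (h20 : St_C20) : St_Nets := by
  intro n hn
  choose e₀ he₀ using hcore
  set e : ℕ := ∑ k ∈ range n, e₀ k with he
  have hle : ∀ k < n, e₀ k ≤ e := by
    intro k hk
    exact Finset.single_le_sum (f := e₀) (fun _ _ => Nat.zero_le _) (mem_range.2 hk)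
  have claim : ∀ k, 1 ≤ k → k ≤ n → Cl e k := by
    intro k hk1
    induction k, hk1 using Nat.le_induction with
    | base =>
      intro h1n
      obtain ⟨C0, hC0⟩ := cl0 h20 e
      obtain ⟨C1, hC1⟩ := core_step h19 (he₀ 0) (hle 0 (by omega))
      refine ⟨C0 + C1 + 3, ?_⟩
      intro q _ hs hq
      have hL := La_pos (q := q) (by omega)
      have hu := uu_pos q
      obtain ⟨c, hc, hg⟩ := hC0 q hs (by omega)
      obtain ⟨c', hc', hg'⟩ := hC1 q hs (by omega) c hc _ hg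
      refine ⟨c', hc', GB_mono hg' ?_⟩
      have hL' : (1:ℝ) ≤ La q := by exact_mod_cast hL
      have hu' : (1:ℝ) ≤ (uu q : ℝ) ^ 2 := by
        have : (1:ℝ) ≤ uu q := by exact_mod_cast hu
        nlinarith
      set m : ℝ := (La q : ℝ) ^ (e + 2) with hm
      have hm1 : (La q : ℝ) ≤ m := by
        rw [hm]
        calc (La q : ℝ) = (La q : ℝ) ^ 1 := (pow_one _).symm
          _ ≤ (La q : ℝ) ^ (e + 2) := pow_le_pow_right₀ hL' (by omega)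
      have hm0 : (0:ℝ) ≤ m := by positivity
      have k1 : m * (La q : ℝ) ^ 2 ≤ m ^ 2 * (La q : ℝ) * (uu q : ℝ) ^ 2 := by
        calc m * (La q : ℝ) ^ 2 = m * (La q : ℝ) * (La q : ℝ) * 1 := by ring
          _ ≤ m * (La q : ℝ) * m * (uu q : ℝ) ^ 2 := by gcongr
          _ = _ := by ring
      push_cast
      have k2 : (0:ℝ) ≤ m ^ 2 * (La q : ℝ) * (uu q : ℝ) ^ 2 := by positivity
      calc (C0:ℝ) * m * (La q : ℝ) ^ 2 + C1 * m ^ (0 + 2) * (La q : ℝ) ^ (0 + 1) * (uu q : ℝ) ^ 2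
          = C0 * (m * (La q : ℝ) ^ 2) + C1 * (m ^ 2 * (La q : ℝ) * (uu q : ℝ) ^ 2) := by ring
        _ ≤ C0 * (m ^ 2 * (La q : ℝ) * (uu q : ℝ) ^ 2) + C1 * (m ^ 2 * (La q : ℝ) * (uu q : ℝ) ^ 2)
            + 3 * (m ^ 2 * (La q : ℝ) * (uu q : ℝ) ^ 2) := by
              have := mul_le_mul_of_nonneg_left k1 (Nat.cast_nonneg (α := ℝ) C0)
              linarith
        _ = ((C0:ℝ) + C1 + 3) * m ^ (1 + 1) * (La q : ℝ) ^ 1 * (uu q : ℝ) ^ 2 := by ring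
    | succ k hk ih =>
      intro hkn
      obtain ⟨C0, hC0⟩ := ih (by omega)
      obtain ⟨C1, hC1⟩ := core_step h19 (he₀ k) (hle k (by omega))
      refine ⟨C0 + C1 + 3, ?_⟩
      intro q _ hs hq
      have hL := La_pos (q := q) (by omega)
      obtain ⟨c, hc, hg⟩ := hC0 q hs (by omega)
      obtain ⟨c', hc', hg'⟩ := hC1 q hs (by omega) c hc _ hg
      refine ⟨c', hc', GB_mono hg' ?_⟩
      have hL' : (1:ℝ) ≤ La q := by exact_mod_cast hL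
      set m : ℝ := (La q : ℝ) ^ (e + 2) with hm
      have hm1 : (1 : ℝ) ≤ m := one_le_pow₀ hL'
      have hm0 : (0:ℝ) ≤ m := by positivity
      have k1 : m ^ (k+1) * (La q : ℝ) ^ k * (uu q : ℝ) ^ 2 ≤
          m ^ (k+2) * (La q : ℝ) ^ (k+1) * (uu q : ℝ) ^ 2 := by
        have a1 : m ^ (k+1) ≤ m ^ (k+2) := pow_le_pow_right₀ hm1 (by omega)
        have a2 : (La q : ℝ) ^ k ≤ (La q : ℝ) ^ (k+1) := pow_le_pow_right₀ hL' (by omega)
        gcongr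
      push_cast
      have k2 : (0:ℝ) ≤ m ^ (k+2) * (La q : ℝ) ^ (k+1) * (uu q : ℝ) ^ 2 := by positivity
      calc (C0:ℝ) * m ^ (k+1) * (La q : ℝ) ^ k * (uu q : ℝ) ^ 2 +
            C1 * m ^ (k + 2) * (La q : ℝ) ^ (k + 1) * (uu q : ℝ) ^ 2
          = C0 * (m ^ (k+1) * (La q : ℝ) ^ k * (uu q : ℝ) ^ 2) +
            C1 * (m ^ (k + 2) * (La q : ℝ) ^ (k + 1) * (uu q : ℝ) ^ 2) := by ring
        _ ≤ C0 * (m ^ (k+2) * (La q : ℝ) ^ (k+1) * (uu q : ℝ) ^ 2) +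
            C1 * (m ^ (k + 2) * (La q : ℝ) ^ (k + 1) * (uu q : ℝ) ^ 2)
            + 3 * (m ^ (k + 2) * (La q : ℝ) ^ (k + 1) * (uu q : ℝ) ^ 2) := by
              have := mul_le_mul_of_nonneg_left k1 (Nat.cast_nonneg (α := ℝ) C0)
              linarith
        _ = ((C0:ℝ) + C1 + 3) * m ^ (k + 1 + 1) * (La q : ℝ) ^ (k + 1) * (uu q : ℝ) ^ 2 := by ring
  obtain ⟨C, hC⟩ := claim n hn le_rfl
  exact ⟨e, C, hC⟩

end Pool.Agent.Y590.SD
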